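import Pool.Agent.W733.JA.Stmts

/-!
# JA2: near a proper attractor there are open sets visited a bounded number of times
-/

set_option autoImplicit false

open scoped Topology ENNReal
open Set Filter MeasureTheory Metric

namespace Pool.Agent.W605.JA

open Pool.Agent.H789R2.AN Pool.Agent.W733.JA

universe u

/-- PropA2 -/
theorem a2 : PropA2.{u} := by
  intro X _ _ _ _ _ g c h A hA hAne m _
  obtain ⟨δ, hδ, hnear⟩ := h.near
  have hex : ∃ x ∈ A, ∃ y, y ∉ A ∧ dist y x < δ := by
    by_contra hcon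
    push Not at hcon
    apply hAne
    refine IsClopen.eq_univ ⟨hA.closed, Metric.isOpen_iff.2 fun x hx => ⟨δ, hδ, fun y hy => ?_⟩⟩
      hA.nonempty
    by_contra hyA
    exact absurd (mem_ball.1 hy) (not_lt.2 (hcon x hx y hyA))
  obtain ⟨x, hx, y, hyA, hyx⟩ := hex
  have hη : 0 < infDist y A := (hA.closed.notMem_iff_infDist_pos hA.nonempty).mp hyA
  obtain ⟨W, hW⟩ : ∃ W : Set X,
      W = {w | ∃ x ∈ A, dist w x < δ} ∩ {w | infDist y A / 2 < infDist w A} := ⟨_, rfl⟩
  have hWo : IsOpen W := by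
    rw [hW]
    refine IsOpen.inter ?_ (isOpen_lt continuous_const (continuous_infDist_pt A))
    have : {w : X | ∃ x ∈ A, dist w x < δ} = ⋃ x ∈ A, ball x δ := by
      ext w
      simp [Metric.mem_ball]
    rw [this]
    exact isOpen_biUnion fun x _ => isOpen_ball
  have hyW : y ∈ W := by
    rw [hW]
    exact ⟨⟨x, hx, hyx⟩, by simp only [Set.mem_ofPred_eq]; linarith⟩
  have hlim : Tendsto (fun n : ℕ => c * (1 / 2 : ℝ) ^ n) atTop (𝓝 0) := by
    have := (tendsto_pow_atTop_nhds_zero_of_lt_one (by norm_num : (0:ℝ) ≤ 1 / 2)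
      (by norm_num)).const_mul c
    simpa using this
  obtain ⟨N, hN⟩ := eventually_atTop.1 ((tendsto_order.mp hlim).2 (infDist y A / 2) (by linarith))
  have key : ∀ w ∈ W, ∀ n : ℕ, g^[n] w ∈ W → n < N := by
    intro w hw n hn
    by_contra hcon
    have h3 := hN n (not_lt.1 hcon)
    rw [hW] at hw hn
    obtain ⟨⟨x', hx', hwx⟩, -⟩ := hw
    obtain ⟨z, hz, hSR⟩ := hnear A hA x' hx' w hwx
    have h1 : infDist (g^[n] w) A ≤ dist (g^[n] w) (g^[n] z) :=
      infDist_le_dist_of_mem ((inv_iter hA.inv n z).mpr hz)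
    have h2 := h.cS w z hSR n
    have h4 : infDist y A / 2 < infDist (g^[n] w) A := hn.2
    linarith
  refine ⟨W, hWo, ⟨y, hyW⟩, ?_⟩
  have hopen : ∀ n : ℕ, IsOpen (g^[n] '' W) := by
    intro n
    have h1 : g^[n] '' W = g.symm^[n] ⁻¹' W := by
      rw [Set.image_eq_preimage_of_inverse (iterL g n) (iterR g n)]
    rw [h1]
    exact hWo.preimage (g.symm.continuous.iterate n)
  have hcnt : ∀ v : X, ∑' n : ℕ, (g^[n] '' W).indicator (fun _ => (1 : ℝ≥0∞)) v ≤ N := by
    intro v
    by_cases hv : ∃ n : ℕ, v ∈ g^[n] '' W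
    · classical
      have h0 := Nat.find_spec hv
      obtain ⟨w1, hw1, hwv1⟩ := h0
      have hsupp : ∀ n ∉ Finset.Ico (Nat.find hv) (Nat.find hv + N),
          (g^[n] '' W).indicator (fun _ => (1 : ℝ≥0∞)) v = 0 := by
        intro n hn
        apply Set.indicator_of_notMem
        intro hnv
        apply hn
        rw [Finset.mem_Ico]
        have h1 : Nat.find hv ≤ n := Nat.find_min' hv hnv
        refine ⟨h1, ?_⟩
        obtain ⟨w2, hw2, hwv2⟩ := hnv
        have h2 : g^[n - Nat.find hv] w2 = w1 := by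
          apply (g.injective.iterate (Nat.find hv))
          rw [← Function.iterate_add_apply, Nat.add_sub_cancel' h1, hwv1, hwv2]
        have h3 := key w2 hw2 (n - Nat.find hv) (h2 ▸ hw1)
        omega
      rw [tsum_eq_sum hsupp]
      calc ∑ n ∈ Finset.Ico (Nat.find hv) (Nat.find hv + N),
            (g^[n] '' W).indicator (fun _ => (1 : ℝ≥0∞)) v
          ≤ ∑ _n ∈ Finset.Ico (Nat.find hv) (Nat.find hv + N), (1 : ℝ≥0∞) :=
            Finset.sum_le_sum fun n _ => Set.indicator_le_self' (fun _ _ => bot_le) v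
        _ = N := by simp
    · push Not at hv
      have h1 : ∀ n : ℕ, (g^[n] '' W).indicator (fun _ => (1 : ℝ≥0∞)) v = 0 :=
        fun n => Set.indicator_of_notMem (hv n) _
      simp only [h1, tsum_zero]
      exact bot_le
  have hsum : ∑' n : ℕ, m (g^[n] '' W) =
      ∫⁻ v, ∑' n : ℕ, (g^[n] '' W).indicator (fun _ => (1 : ℝ≥0∞)) v ∂m := by
    rw [lintegral_tsum fun n => (measurable_const.indicator (hopen n).measurableSet).aemeasurable]
    apply tsum_congr
    intro n
    rw [lintegral_indicator (hopen n).measurableSet, lintegral_const, one_mul,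
      Measure.restrict_apply MeasurableSet.univ, univ_inter]
  rw [hsum]
  apply ne_of_lt
  calc ∫⁻ v, ∑' n : ℕ, (g^[n] '' W).indicator (fun _ => (1 : ℝ≥0∞)) v ∂m
      ≤ ∫⁻ _v, (N : ℝ≥0∞) ∂m := lintegral_mono hcnt
    _ = N * m univ := lintegral_const _
    _ < ⊤ := ENNReal.mul_lt_top (ENNReal.natCast_lt_top N) (measure_lt_top m univ)

end Pool.Agent.W605.JA
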